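import Pool.Agent.helper52.T1.SpecF
import Pool.Agent.helper79.IR.LOC
import Pool.Agent.helper9.IR.BK2

/-!
# MP_07c750, PROJECT T1: row t1:KCH (choice of the cutoff)
-/

set_option autoImplicit false

open scoped MatrixGroups ContDiff Topology UpperHalfPlane ComplexConjugate
open UpperHalfPlane MeasureTheory Filter Set

namespace Pool.Agent.T1

open Pool.Agent.RS Pool.Agent.MS Pool.Agent.HV
open Pool.Agent.EN (XG MG mkX mkM fl pr)
open Pool.Agent.ER (Low LowJ)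

noncomputable section

theorem KCH_low {X : Type} [MeasurableSpace X] (μ : Measure X) [IsProbabilityMeasure μ] (κ : X → ℝ) (hκ : Measurable κ)
    (h01 : ∀ x, 0 ≤ κ x ∧ κ x ≤ 1) (L1 : Set X) (d : ℝ) (h1 : μ.real (L1 \ {x | κ x = 1}) ≤ d) : μ.real L1 - d ≤ ∫ x, κ x ∂μ := by
  have hS : MeasurableSet {x | κ x = 1} := hκ (measurableSet_singleton 1)
  have hi : Integrable κ μ := by
    refine Integrable.of_bound hκ.aestronglyMeasurable 1 (Eventually.of_forall fun x => ?_)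
    rw [Real.norm_eq_abs, abs_of_nonneg (h01 x).1]
    exact (h01 x).2
  have h2 : μ.real {x | κ x = 1} ≤ ∫ x, κ x ∂μ := by
    rw [← integral_indicator_one hS]
    refine integral_mono ((integrable_const (1 : ℝ)).indicator hS) hi fun x => ?_
    by_cases hx : κ x = 1
    · rw [indicator_of_mem (show x ∈ {x | κ x = 1} from hx)]
      show (1 : ℝ) ≤ κ x
      rw [hx]
    · rw [indicator_of_notMem (show x ∉ {x | κ x = 1} from hx)]
      exact (h01 x).1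
  have h3 : μ.real L1 ≤ μ.real (L1 \ {x | κ x = 1}) + μ.real {x | κ x = 1} := by
    refine (measureReal_mono ?_ (measure_ne_top _ _)).trans (measureReal_union_le _ _)
    intro x hx
    by_cases h : κ x = 1
    · exact Or.inr h
    · exact Or.inl ⟨hx, h⟩
  linarith

theorem KCH_int {X : Type} [MeasurableSpace X] (μ : Measure X) [IsProbabilityMeasure μ] (f : X → X) (hf : Measurable f)
    (hfp : ∀ E : Set X, μ.real (f ⁻¹' E) = μ.real E) (κ : X → ℝ) (hκ : Measurable κ) (h01 : ∀ x, 0 ≤ κ x ∧ κ x ≤ 1)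
    (L1 L2 : Set X) (hL1 : MeasurableSet L1) (hL : L1 ⊆ L2) (hinv : ∀ x, f x ∈ L1 ↔ x ∈ L1) (d δ : ℝ)
    (h1 : μ.real (L1 \ {x | κ x = 1}) ≤ d) (h2 : μ.real ({x | κ x ≠ 0} \ L2) ≤ d) (h3 : μ.real L2 ≤ μ.real L1 + δ) :
    ∫ x, (κ x * (1 - κ (f x)) + κ (f x) * (1 - κ x)) ∂μ ≤ 2 * (δ + 2 * d) := by
  obtain ⟨G, hG⟩ : ∃ G : X → ℝ, G = fun x => κ x * (1 - κ (f x)) + κ (f x) * (1 - κ x) := ⟨_, rfl⟩
  have hGm : Measurable G := by
    rw [hG]
    have hκf : Measurable fun x => κ (f x) := hκ.comp hf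
    exact (hκ.mul (measurable_const.sub hκf)).add (hκf.mul (measurable_const.sub hκ))
  have hG01 : ∀ x, 0 ≤ G x ∧ G x ≤ 1 := by
    intro x
    have a1 := h01 x
    have a2 := h01 (f x)
    rw [hG]
    show 0 ≤ κ x * (1 - κ (f x)) + κ (f x) * (1 - κ x) ∧ κ x * (1 - κ (f x)) + κ (f x) * (1 - κ x) ≤ 1
    constructor
    · exact add_nonneg (mul_nonneg a1.1 (by linarith)) (mul_nonneg a2.1 (by linarith))
    · have b1 : 0 ≤ (1 - κ x) * (1 - κ (f x)) := mul_nonneg (by linarith) (by linarith)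
      have b2 : 0 ≤ κ x * κ (f x) := mul_nonneg a1.1 a2.1
      nlinarith
  have hi : Integrable G μ := by
    refine Integrable.of_bound hGm.aestronglyMeasurable 1 (Eventually.of_forall fun x => ?_)
    rw [Real.norm_eq_abs, abs_of_nonneg (hG01 x).1]
    exact (hG01 x).2
  have hS : MeasurableSet {x | G x ≠ 0} := hGm (measurableSet_singleton 0).compl
  have h4 : ∫ x, G x ∂μ ≤ μ.real {x | G x ≠ 0} := by
    rw [← integral_indicator_one hS]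
    refine integral_mono hi ((integrable_const (1 : ℝ)).indicator hS) fun x => ?_
    by_cases hx : G x ≠ 0
    · rw [indicator_of_mem (show x ∈ {x | G x ≠ 0} from hx)]
      exact (hG01 x).2
    · rw [indicator_of_notMem (show x ∉ {x | G x ≠ 0} from hx)]
      exact (not_not.1 hx).le
  obtain ⟨B, hB⟩ : ∃ B : Set X, B = (L1 \ {x | κ x = 1}) ∪ (({x | κ x ≠ 0} \ L2) ∪ (L2 \ L1)) := ⟨_, rfl⟩
  have hBκ : ∀ x, x ∉ B → (x ∈ L1 → κ x = 1) ∧ (x ∉ L1 → κ x = 0) := by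
    intro x hx
    rw [hB, mem_union, mem_union, not_or, not_or] at hx
    obtain ⟨c1, c2, c3⟩ := hx
    constructor
    · intro hx1
      by_contra h
      exact c1 ⟨hx1, h⟩
    · intro hx1
      by_contra h
      by_cases hx2 : x ∈ L2
      · exact c3 ⟨hx2, hx1⟩
      · exact c2 ⟨h, hx2⟩
  have h5 : {x | G x ≠ 0} ⊆ B ∪ f ⁻¹' B := by
    intro x hx
    by_contra hcon
    rw [mem_union, not_or] at hcon
    obtain ⟨c1, c2⟩ := hcon
    apply hx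
    have d1 := hBκ x c1
    have d2 := hBκ (f x) c2
    rw [hG]
    show κ x * (1 - κ (f x)) + κ (f x) * (1 - κ x) = 0
    by_cases hx1 : x ∈ L1
    · rw [d1.1 hx1, d2.1 ((hinv x).2 hx1)]
      norm_num
    · rw [d1.2 hx1, d2.2 (fun h => hx1 ((hinv x).1 h))]
      norm_num
  have h6 : μ.real (L2 \ L1) ≤ δ := by
    rw [measureReal_sdiff hL hL1]
    linarith
  have h7 : μ.real B ≤ δ + 2 * d := by
    rw [hB]
    have e1 := measureReal_union_le (μ := μ) (L1 \ {x | κ x = 1}) (({x | κ x ≠ 0} \ L2) ∪ (L2 \ L1))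
    have e2 := measureReal_union_le (μ := μ) ({x | κ x ≠ 0} \ L2) (L2 \ L1)
    linarith
  have h8 : μ.real {x | G x ≠ 0} ≤ μ.real B + μ.real (f ⁻¹' B) := (measureReal_mono h5 (measure_ne_top _ _)).trans (measureReal_union_le _ _)
  rw [hfp B] at h8
  have h9 : ∫ x, (κ x * (1 - κ (f x)) + κ (f x) * (1 - κ x)) ∂μ = ∫ x, G x ∂μ := by rw [hG]
  rw [h9]
  linarith

/-- the numbers -/
theorem KCH_num (ρ1 η ρ2 : ℝ) (n0 q0 n1 : ℕ) (hρ : 0 ≤ ρ1) (hη : 0 < η) (hη2 : ρ1 + η ≤ ρ2) :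
    ∃ q N0 : ℕ, n0 ≤ 2 * q ∧ q0 ≤ q ∧ n1 ≤ N0 ∧ 1 ≤ N0 ∧ (N0 : ℝ) ≤ Real.exp (2 * q) ∧ Real.exp (2 * q) ≤ 2 * N0 ∧
      2 * Real.exp ((ρ1 + η / 2) * (2 * q)) ≤ (N0 : ℝ) ^ (ρ1 + η) ∧ 2 * Real.exp ((ρ1 + η / 2) * (2 * q)) ≤ Real.exp (ρ2 * (2 * q)) := by
  obtain ⟨Q, hQ⟩ := exists_nat_ge ((1 + ρ1 + η) / η)
  obtain ⟨q, hq⟩ : ∃ q : ℕ, q = n0 + q0 + n1 + 2 + Q := ⟨_, rfl⟩
  have hqQ : (Q : ℝ) ≤ q := by
    have : Q ≤ q := by omega
    exact_mod_cast this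
  have hqn1 : (n1 : ℝ) + 2 ≤ q := by
    have : n1 + 2 ≤ q := by omega
    exact_mod_cast this
  have hq1 : 1 + ρ1 + η ≤ η * q := by
    rw [div_le_iff₀ hη] at hQ
    nlinarith
  have hq0 : (0 : ℝ) ≤ q := Nat.cast_nonneg q
  have hE : (q : ℝ) ≤ Real.exp (2 * q) := by
    have := Real.add_one_le_exp (2 * (q : ℝ))
    linarith
  have hn1 : (0 : ℝ) ≤ (n1 : ℝ) := Nat.cast_nonneg n1
  obtain ⟨N0, hN0⟩ : ∃ N0 : ℕ, N0 = ⌊Real.exp (2 * q)⌋₊ := ⟨_, rfl⟩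
  have hN1 : (N0 : ℝ) ≤ Real.exp (2 * q) := by rw [hN0]; exact Nat.floor_le (Real.exp_pos _).le
  have hN2 : Real.exp (2 * q) < N0 + 1 := by rw [hN0]; exact Nat.lt_floor_add_one _
  have hN3 : n1 + 1 ≤ N0 := by
    have h1 : (n1 : ℝ) + 1 < N0 + 1 := by linarith
    have h2 : (n1 : ℝ) < N0 := by linarith
    have h3 : n1 < N0 := by exact_mod_cast h2
    omega
  have hN4 : (1 : ℝ) ≤ N0 := by
    have : 1 ≤ N0 := by omega
    exact_mod_cast this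
  have hN5 : Real.exp (2 * q) ≤ 2 * N0 := by linarith
  have hl : Real.log 2 ≤ 1 := by
    have := Real.log_two_lt_d9
    linarith
  have hl0 : 0 ≤ Real.log 2 := Real.log_nonneg (by norm_num)
  have h2 : (2 : ℝ) = Real.exp (Real.log 2) := (Real.exp_log (by norm_num)).symm
  have key : Real.log 2 + (ρ1 + η / 2) * (2 * q) ≤ (2 * q - Real.log 2) * (ρ1 + η) := by
    have h3 : Real.log 2 * (1 + ρ1 + η) ≤ 1 * (1 + ρ1 + η) := mul_le_mul_of_nonneg_right hl (by linarith)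
    nlinarith
  refine ⟨q, N0, by omega, by omega, by omega, by omega, hN1, hN5, ?_, ?_⟩
  · have h4 : Real.exp (2 * q - Real.log 2) ≤ N0 := by
      rw [Real.exp_sub, Real.exp_log (by norm_num)]
      linarith
    calc 2 * Real.exp ((ρ1 + η / 2) * (2 * q)) = Real.exp (Real.log 2 + (ρ1 + η / 2) * (2 * q)) := by
          rw [Real.exp_add, Real.exp_log (by norm_num)]
      _ ≤ Real.exp ((2 * q - Real.log 2) * (ρ1 + η)) := Real.exp_le_exp.2 key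
      _ = Real.exp (2 * q - Real.log 2) ^ (ρ1 + η) := by rw [← Real.exp_mul]
      _ ≤ (N0 : ℝ) ^ (ρ1 + η) := Real.rpow_le_rpow (Real.exp_pos _).le h4 (by linarith)
  · calc 2 * Real.exp ((ρ1 + η / 2) * (2 * q)) = Real.exp (Real.log 2 + (ρ1 + η / 2) * (2 * q)) := by
          rw [Real.exp_add, Real.exp_log (by norm_num)]
      _ ≤ Real.exp (ρ2 * (2 * q)) := by
          refine Real.exp_le_exp.2 (key.trans ?_)
          have h5 : 0 ≤ Real.log 2 * (ρ1 + η) := mul_nonneg hl0 (by linarith)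
          have h6 : (ρ1 + η) * (2 * q) ≤ ρ2 * (2 * q) := mul_le_mul_of_nonneg_right hη2 (by linarith)
          nlinarith

/-- **Row KCH.** -/
theorem KCH_proof (hCOV : IR.COV_stmt) (hLOB : IR.LOB_stmt) (hFLI : IR.FLI_stmt) (hPKS : TP.PKS_stmt) (hXFL : EN.XFL_stmt) (hXTX : EN.XTX_stmt) : KCH_stmt := by
  intro Γ μ ρ1 ρ2 δ δ' η a1 hΓ hμ hinv hρ1 hρ12 hLL hδ hδ' hη ha1
  have hρ2 : 0 ≤ ρ2 := by linarith
  obtain ⟨η', hη'⟩ : ∃ η' : ℝ, η' = min η (ρ2 - ρ1) := ⟨_, rfl⟩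
  have hη0 : 0 < η' := by rw [hη']; exact lt_min hη (by linarith)
  have hη1 : η' ≤ η := by rw [hη']; exact min_le_left _ _
  have hη2 : ρ1 + η' ≤ ρ2 := by
    have := min_le_right η (ρ2 - ρ1)
    rw [hη']
    linarith
  obtain ⟨d, hd⟩ : ∃ d : ℝ, d = δ' / 8 := ⟨_, rfl⟩
  have hd0 : 0 < d := by rw [hd]; positivity
  obtain ⟨a0, ha0, -, hP⟩ := hPKS Γ hΓ
  obtain ⟨b1, hb1, hL⟩ := hLOB Γ μ ρ2 hΓ hμ hinv hρ2 d hd0
  obtain ⟨a, ha⟩ : ∃ a : ℝ, a = min (min a1 (1 / 8000)) (min a0 (b1 / 32)) := ⟨_, rfl⟩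
  have ha' : 0 < a := by
    rw [ha]
    exact lt_min (lt_min ha1 (by norm_num)) (lt_min ha0 (by positivity))
  have haa1 : a ≤ a1 := by rw [ha]; exact (min_le_left _ _).trans (min_le_left _ _)
  have haa2 : a ≤ 1 / 8000 := by rw [ha]; exact (min_le_left _ _).trans (min_le_right _ _)
  have haa3 : a ≤ a0 := by rw [ha]; exact (min_le_right _ _).trans (min_le_left _ _)
  have haa4 : 32 * a ≤ b1 := by
    have : a ≤ b1 / 32 := by rw [ha]; exact (min_le_right _ _).trans (min_le_right _ _)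
    linarith
  obtain ⟨C, hC, hP2⟩ := hP a ha' haa3
  obtain ⟨q0, hq0⟩ := hL (32 * a) (by positivity) haa4
  obtain ⟨n0, hn0⟩ := hCOV Γ μ ρ1 hΓ hμ hinv hρ1 a (η' / 2) d ha' (by positivity) hd0
  refine ⟨a, C, ha', haa1, haa2, hC, fun n1 => ?_⟩
  obtain ⟨q, N0, c1, c2, c3, c4, c5, c6, c7, c8⟩ := KCH_num ρ1 η' ρ2 n0 q0 n1 hρ1 hη0 hη2
  obtain ⟨A, hA1, hA2⟩ := hn0 (2 * q) c1
  have e2 : ((2 * q : ℕ) : ℝ) = 2 * (q : ℝ) := by push_cast; rfl
  rw [e2] at hA1 hA2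
  have hN1 : (1 : ℝ) ≤ (N0 : ℝ) := by exact_mod_cast c4
  have hN0 : (0 : ℝ) < (N0 : ℝ) := by linarith
  obtain ⟨A', κ, κa, κn, κl, hA', hKF, hone⟩ := hP2 (Real.log N0) A (Real.log_nonneg hN1)
  have hexp : Real.exp (Real.log N0) = N0 := Real.exp_log hN0
  have hexp' : Real.exp (-Real.log N0) = 1 / N0 := by rw [Real.exp_neg, hexp, one_div]
  have hA'1 : (A'.card : ℝ) ≤ 2 * Real.exp ((ρ1 + η' / 2) * (2 * q)) := by
    have h1 : (A'.card : ℝ) ≤ 2 * A.card := by exact_mod_cast hA'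
    linarith
  obtain ⟨hfl, -, hcont, hopen, hsurj, -, -, -, hflow, -, hcls, -⟩ := hXFL Γ
  have hinvκ : ∀ g g' : SL(2, ℝ), mkX Γ g = mkX Γ g' → κ g = κ g' := by
    intro g g' h
    obtain ⟨γ, hγ⟩ := (hcls g g').1 h
    rw [← hγ]
    exact (hKF.sf.i0.2 γ g).symm
  obtain ⟨κX, hκX⟩ : ∃ κX : XG Γ → ℝ, κX = fun x => κ (Function.surjInv hsurj x) := ⟨_, rfl⟩
  have hκX1 : ∀ g, κX (mkX Γ g) = κ g := by
    intro g
    rw [hκX]
    exact hinvκ _ _ (Function.surjInv_eq hsurj _)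
  have hκc : Continuous κX := by
    rw [(hopen.isQuotientMap hcont hsurj).continuous_iff]
    have h1 : κX ∘ mkX Γ = κ := funext hκX1
    rw [h1]
    exact hKF.sf.i0.1
  have h01 : ∀ x, 0 ≤ κX x ∧ κX x ≤ 1 := by
    intro x
    obtain ⟨g, rfl⟩ := hsurj x
    rw [hκX1]
    exact hKF.rg g
  have hexq : Real.exp (-(2 * (q : ℝ))) ≤ Real.exp (-Real.log N0) := by
    rw [Real.exp_neg, Real.exp_neg, hexp]
    exact inv_anti₀ hN0 c5
  have hexq' : Real.exp (-Real.log N0) ≤ 2 * Real.exp (-(2 * (q : ℝ))) := by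
    rw [Real.exp_neg, Real.exp_neg, hexp, ← div_eq_mul_inv, le_div_iff₀ (Real.exp_pos _), inv_mul_eq_div, div_le_iff₀ hN0]
    exact c6
  have hB1 : IR.BX Γ A a (2 * q) ⊆ {x | κX x = 1} := by
    intro x hx
    obtain ⟨g, rfl⟩ := hsurj x
    obtain ⟨y, hy, γ, b1, b2, b3, b4⟩ := IR.BK2_box hXFL Γ A a (2 * q) g hx
    show κX (mkX Γ g) = 1
    rw [hκX1]
    refine hone g ⟨y, hy, γ, b1, b2, b3, b4.trans ?_⟩
    exact mul_le_mul_of_nonneg_left hexq ha'.le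
  have hB2 : {x | κX x ≠ 0} ⊆ IR.BX Γ A' (32 * a) (2 * q) := by
    intro x hx
    obtain ⟨g, rfl⟩ := hsurj x
    have hx' : κX (mkX Γ g) ≠ 0 := hx
    rw [hκX1] at hx'
    obtain ⟨y, hy, γ, b1, b2, b3, b4⟩ := hKF.su g hx'
    refine IR.BK2_box' hXFL Γ A' (32 * a) (2 * q) g ⟨y, hy, γ, by linarith, by linarith, by linarith, b4.trans ?_⟩
    have h1 := mul_le_mul_of_nonneg_left hexq' (show (0 : ℝ) ≤ 16 * a by positivity)
    linarith
  have hs1 : Low Γ μ ρ1 \ {x | κX x = 1} ⊆ Low Γ μ ρ1 \ IR.BX Γ A a (2 * q) := fun x hx => ⟨hx.1, fun h => hx.2 (hB1 h)⟩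
  have hs2 : {x | κX x ≠ 0} \ Low Γ μ ρ2 ⊆ IR.BX Γ A' (32 * a) (2 * q) \ Low Γ μ ρ2 := fun x hx => ⟨hB2 hx.1, hx.2⟩
  have hm1 : μ.real (Low Γ μ ρ1 \ {x | κX x = 1}) ≤ d := (measureReal_mono hs1 (measure_ne_top _ _)).trans hA2
  have hm2 : μ.real ({x | κX x ≠ 0} \ Low Γ μ ρ2) ≤ d :=
    (measureReal_mono hs2 (measure_ne_top _ _)).trans (hq0 q c2 A' (hA'1.trans c8))
  refine ⟨N0, A', κ, κa, κn, κl, c3, ⟨?_, hKF.sf, hKF.rg, hKF.ev, hKF.bn, ?_, ?_⟩, κX, hκc, hκX1, ?_, fun s => ?_⟩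
  · refine hA'1.trans (c7.trans ?_)
    exact Real.rpow_le_rpow_of_exponent_le hN1 (by linarith)
  · intro g
    have := hKF.bl g
    rwa [hexp] at this
  · intro g hg
    have := hKF.su g hg
    rwa [hexp'] at this
  · have := KCH_low μ κX hκc.measurable h01 (Low Γ μ ρ1) d hm1
    rw [hd] at this
    linarith
  · have hflm : Measurable (fl Γ s) := (hfl.cont.comp (Continuous.prodMk continuous_const continuous_id)).measurable
    have hLinv : ∀ x, fl Γ s x ∈ Low Γ μ ρ1 ↔ x ∈ Low Γ μ ρ1 := by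
      intro x
      constructor
      · intro h
        have h1 := hFLI Γ μ ρ1 (-s) (fl Γ s x) hΓ hμ hinv h
        rwa [← hfl.add, neg_add_cancel, hfl.zero] at h1
      · intro h
        exact hFLI Γ μ ρ1 s x hΓ hμ hinv h
    have := KCH_int μ (fl Γ s) hflm (IR.BK2_fl hXFL Γ μ hinv s) κX hκc.measurable h01 (Low Γ μ ρ1) (Low Γ μ ρ2)
      (IR.LOC_meas hXFL hXTX Γ μ hΓ ρ1) (fun x hx => IR.LOC_mono hρ12.le hx) hLinv d δ hm1 hm2 hLL
    rw [hd] at this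
    linarith

end

end Pool.Agent.T1
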