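import Pool.Agent.helper65.T1.SpecN

set_option autoImplicit false

open MeasureTheory

namespace Pool.Agent.T1

noncomputable section

theorem NM1_cnt (J : Finset ℤ) (a b : ℝ) (hab : a ≤ b + 1) (hJ : ∀ j ∈ J, a ≤ (j : ℝ) ∧ (j : ℝ) ≤ b) : (J.card : ℝ) ≤ b - a + 1 := by
  have h1 : J ⊆ Finset.Icc ⌈a⌉ ⌊b⌋ := by
    intro j hj
    obtain ⟨h2, h3⟩ := hJ j hj
    exact Finset.mem_Icc.2 ⟨Int.ceil_le.2 h2, Int.le_floor.2 h3⟩
  have h2 := Finset.card_le_card h1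
  rw [Int.card_Icc] at h2
  have h3 : (J.card : ℝ) ≤ ((⌊b⌋ + 1 - ⌈a⌉).toNat : ℝ) := by exact_mod_cast h2
  have h4 : ((⌊b⌋ + 1 - ⌈a⌉).toNat : ℝ) ≤ max ((⌊b⌋ + 1 - ⌈a⌉ : ℤ) : ℝ) 0 := by
    have h5 : (((⌊b⌋ + 1 - ⌈a⌉).toNat : ℤ) : ℝ) = ((max (⌊b⌋ + 1 - ⌈a⌉) 0 : ℤ) : ℝ) := by
      rw [Int.toNat_eq_max]
    have h6 : (((⌊b⌋ + 1 - ⌈a⌉).toNat : ℤ) : ℝ) = ((⌊b⌋ + 1 - ⌈a⌉).toNat : ℝ) := by
      push_cast
      rfl
    rw [← h6, h5]
    push_cast
    exact le_rfl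
  have h5 := Int.floor_le b
  have h6 := Int.le_ceil a
  refine h3.trans (h4.trans (max_le ?_ ?_))
  · push_cast
    linarith
  · linarith

theorem NM1_rd (x w : ℝ) (hw : 0 < w) : ∃ m : ℤ, |x - m * w| ≤ w ∧ |(m : ℝ) * w| ≤ |x| := by
  rcases le_total 0 x with hx | hx
  · refine ⟨⌊x / w⌋, ?_, ?_⟩
    · have h1 := Int.floor_le (x / w)
      have h2 := Int.lt_floor_add_one (x / w)
      rw [le_div_iff₀ hw] at h1
      rw [div_lt_iff₀ hw] at h2
      rw [abs_le]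
      constructor
      · linarith
      · linarith
    · have h1 := Int.floor_le (x / w)
      rw [le_div_iff₀ hw] at h1
      have h3 : (0 : ℝ) ≤ (⌊x / w⌋ : ℝ) := by
        have : (0 : ℤ) ≤ ⌊x / w⌋ := Int.floor_nonneg.2 (div_nonneg hx hw.le)
        exact_mod_cast this
      rw [abs_of_nonneg (mul_nonneg h3 hw.le), abs_of_nonneg hx]
      exact h1
  · refine ⟨⌈x / w⌉, ?_, ?_⟩
    · have h1 := Int.le_ceil (x / w)
      have h2 := Int.ceil_lt_add_one (x / w)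
      rw [div_le_iff₀ hw] at h1
      rw [← sub_lt_iff_lt_add, lt_div_iff₀ hw] at h2
      rw [abs_le]
      constructor
      · linarith
      · linarith
    · have h1 := Int.le_ceil (x / w)
      rw [div_le_iff₀ hw] at h1
      have h3 : (⌈x / w⌉ : ℝ) ≤ 0 := by
        have : ⌈x / w⌉ ≤ (0 : ℤ) := Int.ceil_le.2 (by push_cast; exact div_nonpos_of_nonpos_of_nonneg hx hw.le)
        exact_mod_cast this
      rw [abs_of_nonpos (mul_nonpos_of_nonpos_of_nonneg h3 hw.le), abs_of_nonpos hx]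
      linarith

theorem NM1_proof (hNLP : NLP_stmt) : NM1_stmt := by
  classical
  intro N U θ T J tj xj hN hU hθ hθ1 hθT hT4 hJ t x
  have hT0 : 0 < T := by
    by_contra hc
    have := mul_nonpos_of_nonneg_of_nonpos hθ.le (not_lt.1 hc)
    linarith
  have hT1 : 1 ≤ T := by nlinarith
  have hNr : (1 : ℝ) ≤ N := by exact_mod_cast hN
  have hc0 : (0 : ℝ) ≤ U.card := Nat.cast_nonneg _
  have hr0 : 0 < θ / (1000 * T) := by positivity
  have hA : 0 ≤ 2 * (N : ℝ) * (θ / (1000 * T)) + 2 := by positivity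
  set S : Finset ℤ := {j ∈ J | |x - xj j| ≤ θ / (1000 * T) ∧ |t - tj j| ≤ θ / 120} with hS
  have hsum0 : ∀ m ∈ NMs θ T, 0 ≤ (if |x - m * Nw θ T| ≤ Nw θ T then ‖NS N U (m * Nw θ T) t (t * (x - m * Nw θ T))‖ ^ 4 else 0) := by
    intro m _
    split_ifs
    · positivity
    · exact le_rfl
  rcases Finset.eq_empty_or_nonempty S with hE | ⟨j0, hj0⟩
  · rw [hE, Finset.card_empty, Nat.cast_zero, mul_zero]
    exact mul_nonneg (by positivity) (Finset.sum_nonneg hsum0)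
  obtain ⟨hj1, hj2, hj3⟩ := Finset.mem_filter.1 hj0
  obtain ⟨-, -, g3, g4, g5, g6⟩ := hJ j0 hj1
  have hr1 : θ / (1000 * T) ≤ 1 / 1000 := by
    rw [div_le_div_iff₀ (by positivity) (by norm_num)]
    nlinarith
  have hx : |x| ≤ 1 / 4 := by
    have h1 : |x| ≤ |x - xj j0| + |xj j0| := by
      have := abs_add_le (x - xj j0) (xj j0)
      rwa [sub_add_cancel] at this
    linarith
  have hxj : |xj j0| ≤ 1 / 4 := by linarith
  obtain ⟨n1, -, -⟩ := hNLP N U (xj j0) x hN hU hxj hx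
  have e1 := n1 (tj j0) t
  have hpi := Real.pi_lt_d2
  have hpi0 := Real.pi_pos
  have htj : |tj j0| ≤ 2 * T := by
    rw [abs_of_nonneg (by linarith)]
    exact g5
  have e2 : 4 * |tj j0 - t| + 16 * |tj j0| * |xj j0 - x| ≤ 4 * (θ / 120) + 32 * (θ / 1000) := by
    have f1 : |tj j0 - t| ≤ θ / 120 := by
      rw [abs_sub_comm]
      exact hj3
    have f2 : |xj j0 - x| ≤ θ / (1000 * T) := by
      rw [abs_sub_comm]
      exact hj2
    have f3 : |tj j0| * |xj j0 - x| ≤ 2 * T * (θ / (1000 * T)) :=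
      mul_le_mul htj f2 (abs_nonneg _) (by linarith)
    have f4 : 2 * T * (θ / (1000 * T)) = 2 * (θ / 1000) := by
      field_simp
    rw [f4] at f3
    linarith
  have e3 : 2 * Real.pi * (4 * |tj j0 - t| + 16 * |tj j0| * |xj j0 - x|) ≤ θ / 2 := by
    have f5 : 2 * Real.pi * (4 * |tj j0 - t| + 16 * |tj j0| * |xj j0 - x|) ≤ 2 * Real.pi * (4 * (θ / 120) + 32 * (θ / 1000)) :=
      mul_le_mul_of_nonneg_left e2 (by positivity)
    have f6 : 2 * Real.pi * (4 * (θ / 120) + 32 * (θ / 1000)) ≤ 2 * 3.15 * (4 * (θ / 120) + 32 * (θ / 1000)) :=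
      mul_le_mul_of_nonneg_right (by linarith) (by positivity)
    have f7 : 2 * 3.15 * (4 * (θ / 120) + 32 * (θ / 1000)) ≤ θ / 2 := by
      linarith
    linarith
  have e4 : ‖NE N U (tj j0) (xj j0) - NE N U t x‖ ≤ U.card * (θ / 2) :=
    e1.trans (mul_le_mul_of_nonneg_left e3 hc0)
  have e5 : θ / 2 * U.card ≤ ‖NE N U t x‖ := by
    have f1 : ‖NE N U (tj j0) (xj j0)‖ - ‖NE N U t x‖ ≤ ‖NE N U (tj j0) (xj j0) - NE N U t x‖ := norm_sub_norm_le _ _
    linarith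
  have hw : 0 < Nw θ T := by
    unfold Nw
    have : 0 < Real.sqrt (θ / T) := Real.sqrt_pos.2 (by positivity)
    positivity
  have hw2 : Nw θ T ^ 2 = θ / (16384 * T) := by
    unfold Nw
    rw [div_pow, Real.sq_sqrt (by positivity)]
    field_simp
    norm_num
  obtain ⟨m, hm1, hm2⟩ := NM1_rd x (Nw θ T) hw
  have hm3 : |(m : ℝ) * Nw θ T| ≤ 1 / 4 := hm2.trans hx
  have hmM : m ∈ NMs θ T := by
    unfold NMs
    rw [abs_mul, abs_of_pos hw] at hm3
    have f1 : |(m : ℝ)| ≤ 1 / (4 * Nw θ T) := by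
      rw [le_div_iff₀ (by positivity)]
      linarith
    obtain ⟨f2, f3⟩ := abs_le.1 f1
    rw [Finset.mem_Icc]
    constructor
    · have f4 : -m ≤ ⌊1 / (4 * Nw θ T)⌋ := Int.le_floor.2 (by push_cast; linarith)
      linarith
    · exact Int.le_floor.2 f3
  obtain ⟨-, n2, -⟩ := hNLP N U (m * Nw θ T) x hN hU hm3 hx
  have e6 := n2 t
  have ht3 : |t| ≤ 3 * T := by
    have f1 : |t| ≤ |t - tj j0| + |tj j0| := by
      have := abs_add_le (t - tj j0) (tj j0)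
      rwa [sub_add_cancel] at this
    linarith
  have e7 : (x - m * Nw θ T) ^ 2 ≤ θ / (16384 * T) := by
    rw [← hw2]
    exact sq_le_sq' (by linarith [(abs_le.1 hm1).1]) (abs_le.1 hm1).2
  have e8 : 1207 * (U.card : ℝ) * |t| * (x - m * Nw θ T) ^ 2 ≤ θ / 4 * U.card := by
    have f1 : |t| * (x - m * Nw θ T) ^ 2 ≤ 3 * T * (θ / (16384 * T)) :=
      mul_le_mul ht3 e7 (sq_nonneg _) (by linarith)
    have f2 : 3 * T * (θ / (16384 * T)) = 3 * (θ / 16384) := by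
      field_simp
    rw [f2] at f1
    have f3 : 1207 * (U.card : ℝ) * |t| * (x - m * Nw θ T) ^ 2 = 1207 * (U.card : ℝ) * (|t| * (x - m * Nw θ T) ^ 2) := by ring
    rw [f3]
    have f4 : 1207 * (U.card : ℝ) * (|t| * (x - m * Nw θ T) ^ 2) ≤ 1207 * (U.card : ℝ) * (3 * (θ / 16384)) :=
      mul_le_mul_of_nonneg_left f1 (by positivity)
    have f5 : 1207 * (U.card : ℝ) * (3 * (θ / 16384)) ≤ θ / 4 * U.card := by
      have : 0 ≤ θ * U.card := by positivity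
      nlinarith
    linarith
  have e9 : θ / 4 * U.card ≤ ‖NS N U (m * Nw θ T) t (t * (x - m * Nw θ T))‖ := by
    have f1 : ‖NE N U t x‖ - ‖NS N U (m * Nw θ T) t (t * (x - m * Nw θ T))‖ ≤
        ‖NE N U t x - NS N U (m * Nw θ T) t (t * (x - m * Nw θ T))‖ := norm_sub_norm_le _ _
    linarith
  have e10 : (θ * U.card) ^ 4 ≤ 256 * ‖NS N U (m * Nw θ T) t (t * (x - m * Nw θ T))‖ ^ 4 := by
    have f1 : (θ / 4 * U.card) ^ 4 ≤ ‖NS N U (m * Nw θ T) t (t * (x - m * Nw θ T))‖ ^ 4 :=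
      pow_le_pow_left₀ (by positivity) e9 4
    have f2 : (θ / 4 * U.card) ^ 4 = (θ * U.card) ^ 4 / 256 := by ring
    rw [f2] at f1
    linarith
  have e11 : ‖NS N U (m * Nw θ T) t (t * (x - m * Nw θ T))‖ ^ 4 ≤
      ∑ m ∈ NMs θ T, if |x - m * Nw θ T| ≤ Nw θ T then ‖NS N U (m * Nw θ T) t (t * (x - m * Nw θ T))‖ ^ 4 else 0 := by
    have f1 := Finset.single_le_sum hsum0 hmM
    rw [if_pos hm1] at f1
    exact f1
  have e12 : (S.card : ℝ) ≤ 2 * N * (θ / (1000 * T)) + 2 := by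
    have f1 := NM1_cnt S (N * (x - θ / (1000 * T)) - 1) (N * (x + θ / (1000 * T))) (by nlinarith) (by
      intro j hj
      obtain ⟨k1, k2, -⟩ := Finset.mem_filter.1 hj
      obtain ⟨l1, l2, -⟩ := hJ j k1
      obtain ⟨k3, k4⟩ := abs_le.1 k2
      constructor
      · have : (N : ℝ) * (x - θ / (1000 * T)) ≤ N * xj j := mul_le_mul_of_nonneg_left (by linarith) (by positivity)
        linarith
      · have : (N : ℝ) * xj j ≤ N * (x + θ / (1000 * T)) := mul_le_mul_of_nonneg_left (by linarith) (by positivity)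
        linarith)
    linarith
  have hX0 : 0 ≤ ∑ m ∈ NMs θ T, if |x - m * Nw θ T| ≤ Nw θ T then ‖NS N U (m * Nw θ T) t (t * (x - m * Nw θ T))‖ ^ 4 else 0 :=
    Finset.sum_nonneg hsum0
  calc (θ * U.card) ^ 4 * (S.card : ℝ)
      ≤ (256 * ‖NS N U (m * Nw θ T) t (t * (x - m * Nw θ T))‖ ^ 4) * (2 * N * (θ / (1000 * T)) + 2) :=
        mul_le_mul e10 e12 (Nat.cast_nonneg _) (by positivity)
    _ ≤ (256 * ∑ m ∈ NMs θ T, if |x - m * Nw θ T| ≤ Nw θ T then ‖NS N U (m * Nw θ T) t (t * (x - m * Nw θ T))‖ ^ 4 else 0) *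
        (2 * N * (θ / (1000 * T)) + 2) :=
        mul_le_mul_of_nonneg_right (mul_le_mul_of_nonneg_left e11 (by norm_num)) hA
    _ = 256 * (2 * N * (θ / (1000 * T)) + 2) * ∑ m ∈ NMs θ T, if |x - m * Nw θ T| ≤ Nw θ T then ‖NS N U (m * Nw θ T) t (t * (x - m * Nw θ T))‖ ^ 4 else 0 := by
        ring

end

end Pool.Agent.T1
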